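import Mathlib

/-!
Arithmetic lemmas: multiplicative independence of `3 c` and `2 c`, near integers in the orbit of `3/2`.
-/

set_option autoImplicit false

namespace Pool.Agent.Zk45.Syn

theorem irr (c : ℕ) (hc : 1 ≤ c) :
    Irrational (Real.log ((3 * c : ℕ) : ℝ) / Real.log ((2 * c : ℕ) : ℝ)) := by
  rintro ⟨q, hq⟩
  have h1 : 0 < Real.log ((3 * c : ℕ) : ℝ) := Real.log_pos (by exact_mod_cast (by omega : 1 < 3 * c))
  have h2 : 0 < Real.log ((2 * c : ℕ) : ℝ) := Real.log_pos (by exact_mod_cast (by omega : 1 < 2 * c))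
  have hq0 : (0 : ℝ) < q := by rw [hq]; positivity
  have hq0' : 0 < q := by exact_mod_cast hq0
  obtain ⟨a, b, hb, ha, e⟩ : ∃ a b : ℕ, 0 < b ∧ 0 < a ∧ q = (a : ℚ) / b := by
    refine ⟨q.num.toNat, q.den, q.den_pos, ?_, ?_⟩
    · have := Rat.num_pos.2 hq0'
      omega
    · have h3 : ((q.num.toNat : ℕ) : ℚ) = q.num := by
        have := Rat.num_pos.2 hq0'
        have h4 : ((q.num.toNat : ℕ) : ℤ) = q.num := Int.toNat_of_nonneg this.le
        exact_mod_cast h4
      rw [h3, Rat.num_div_den]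
  have h3 : (b : ℝ) * Real.log ((3 * c : ℕ) : ℝ) = a * Real.log ((2 * c : ℕ) : ℝ) := by
    have hb' : (b : ℝ) ≠ 0 := by positivity
    rw [e, eq_div_iff h2.ne'] at hq
    push_cast at hq ⊢
    rw [← hq]
    field_simp
  have h4 : (3 * c) ^ b = (2 * c) ^ a := by
    rw [← Real.log_pow, ← Real.log_pow] at h3
    have := Real.log_injOn_pos (Set.mem_Ioi.2 (by positivity)) (Set.mem_Ioi.2 (by positivity)) h3
    exact_mod_cast this
  have v2 := congrArg (fun n => n.factorization 2) h4
  have v3 := congrArg (fun n => n.factorization 3) h4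
  simp only [Nat.factorization_pow, Finsupp.smul_apply, smul_eq_mul] at v2 v3
  rw [Nat.factorization_mul (by norm_num) (by omega), Nat.factorization_mul (by norm_num) (by omega)] at v2 v3
  simp only [Finsupp.add_apply] at v2 v3
  have e32 : (Nat.factorization 3) 2 = 0 := Nat.factorization_eq_zero_of_not_dvd (by norm_num)
  have e23 : (Nat.factorization 2) 3 = 0 := Nat.factorization_eq_zero_of_not_dvd (by norm_num)
  have e22 : (Nat.factorization 2) 2 = 1 := Nat.Prime.factorization_self Nat.prime_two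
  have e33 : (Nat.factorization 3) 3 = 1 := Nat.Prime.factorization_self Nat.prime_three
  rw [e32, e22] at v2
  rw [e23, e33] at v3
  have h5 : a < b := by
    by_contra h
    push Not at h
    have : b * (0 + c.factorization 2) ≤ a * c.factorization 2 := by
      rw [zero_add]
      exact Nat.mul_le_mul_right _ h
    nlinarith
  have h6 : a * (0 + c.factorization 3) ≤ b * c.factorization 3 := by
    rw [zero_add]
    exact Nat.mul_le_mul_right _ h5.le
  nlinarith

/-- if `b ξ (3/2)^t` is near an integer for `m ≤ t ≤ N` then the integer at `m` is divisible by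
`2 ^ (N - m)` or all these integers vanish -/
theorem near (β : ℝ) (m N : ℕ) (hmN : m ≤ N)
    (h : ∀ t : ℕ, m ≤ t → t ≤ N → |β * (3 / 2) ^ t - round (β * (3 / 2) ^ t)| < 1 / 5) :
    |β * (3 / 2) ^ N| < 1 / 5 ∨ (2 : ℝ) ^ N ≤ 2 ^ m * (|β * (3 / 2) ^ m| + 1) := by
  set a : ℕ → ℤ := fun t => round (β * (3 / 2) ^ t) with ha
  have h1 : ∀ t, m ≤ t → t + 1 ≤ N → 2 * a (t + 1) = 3 * a t := by
    intro t h1 h2
    have h3 := abs_lt.1 (h t h1 (by omega))
    have h4 := abs_lt.1 (h (t + 1) (by omega) h2)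
    have h5 : β * (3 / 2) ^ (t + 1) = 3 / 2 * (β * (3 / 2) ^ t) := by ring
    have h6 : |(2 * a (t + 1) - 3 * a t : ℝ)| < 1 := by
      rw [abs_lt]
      simp only [ha]
      constructor <;> [skip; skip] <;> nlinarith [h3.1, h3.2, h4.1, h4.2, h5]
    have h7 : |2 * a (t + 1) - 3 * a t| < 1 := by exact_mod_cast h6
    have h8 := Int.abs_lt_one_iff.1 h7
    omega
  have h2 : ∀ i, m + i ≤ N → 2 ^ i * a (m + i) = 3 ^ i * a m := by
    intro i
    induction i with
    | zero => intro _; simp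
    | succ i ih =>
      intro hi
      have h3 := ih (by omega)
      have h4 := h1 (m + i) (by omega) (by omega)
      rw [← add_assoc, pow_succ, mul_assoc, h4, pow_succ]
      linear_combination 3 * h3
  obtain ⟨d, rfl⟩ := Nat.exists_eq_add_of_le hmN
  have h3 := h2 d le_rfl
  by_cases h0 : a m = 0
  · left
    rw [h0, mul_zero] at h3
    have h4 : a (m + d) = 0 := by
      rcases mul_eq_zero.1 h3 with h | h
      · exact absurd h (by positivity)
      · exact h
    have h5 := h (m + d) (by omega) le_rfl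
    have h6 : round (β * (3 / 2) ^ (m + d)) = 0 := h4
    rw [h6, Int.cast_zero, sub_zero] at h5
    exact h5
  · right
    have h4 : (2 : ℤ) ^ d ∣ a m := by
      have h5 : (2 : ℤ) ^ d ∣ 3 ^ d * a m := ⟨_, h3.symm⟩
      refine IsCoprime.dvd_of_dvd_mul_left ?_ h5
      exact IsCoprime.pow (by norm_num)
    have h5 : (2 : ℤ) ^ d ≤ |a m| := Int.le_of_dvd (abs_pos.2 h0) ((dvd_abs _ _).2 h4)
    have h6 : |(a m : ℝ)| ≤ |β * (3 / 2) ^ m| + 1 := by
      have h7 := h m le_rfl (by omega)
      have h8 : |(a m : ℝ)| ≤ |β * (3 / 2) ^ m| + |β * (3 / 2) ^ m - a m| := by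
        have := abs_sub_abs_le_abs_sub (a m : ℝ) (β * (3 / 2) ^ m)
        rw [abs_sub_comm] at this
        linarith
      have h9 : |β * (3 / 2) ^ m - (a m : ℝ)| < 1 / 5 := h7
      linarith
    have h7 : ((2 : ℝ) ^ d) ≤ |(a m : ℝ)| := by exact_mod_cast h5
    rw [pow_add]
    have h8 : (0 : ℝ) < 2 ^ m := by positivity
    exact mul_le_mul_of_nonneg_left (h7.trans h6) h8.le

end Pool.Agent.Zk45.Syn
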