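import Pool.Agent.Zk45.Syn.Cpt
import Pool.Agent.Zk45.Syn.Arith

/-!
For finitely many open subsets of the circle there is `C` such that for every `ξ > 0` one of the numbers
`s^j ξ`, `j ≤ C`, visits all of them under the powers of `3/2`.
-/

set_option autoImplicit false
set_option linter.unusedSectionVars false

open Filter Topology Set
open Pool.Agent.H847R3.XpXq

namespace Pool.Agent.Zk45.Syn

/-- a real number whose orbit visits finitely many open sets -/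
lemma visits {W : Type} [Finite W] (U : W → Set TT) (hU : ∀ w, IsOpen (U w)) (hne : ∀ w, (U w).Nonempty) :
    ∃ r : ℝ, ∀ w, ∃ n : ℕ, ((r * (3 / 2) ^ n : ℝ) : TT) ∈ U w := by
  have h1 : ∀ w, IsOpen {r : ℝ | ∃ n : ℕ, ((r * (3 / 2) ^ n : ℝ) : TT) ∈ U w} := by
    intro w
    have : {r : ℝ | ∃ n : ℕ, ((r * (3 / 2) ^ n : ℝ) : TT) ∈ U w} =
        ⋃ n : ℕ, (fun r : ℝ => ((r * (3 / 2) ^ n : ℝ) : TT)) ⁻¹' (U w) := by
      ext r; simp
    rw [this]
    refine isOpen_iUnion fun n => (hU w).preimage ?_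
    exact (AddCircle.continuous_mk' 1).comp (by fun_prop)
  have h2 : ∀ w, Dense {r : ℝ | ∃ n : ℕ, ((r * (3 / 2) ^ n : ℝ) : TT) ∈ U w} := by
    intro w
    rw [Metric.dense_iff]
    intro x ε hε
    obtain ⟨u, hu⟩ := hne w
    obtain ⟨v, rfl⟩ := QuotientAddGroup.mk_surjective u
    obtain ⟨n, hn⟩ := pow_unbounded_of_one_lt (1 / ε) (by norm_num : (1 : ℝ) < 3 / 2)
    have hn0 : (0 : ℝ) < (3 / 2) ^ n := by positivity
    set l : ℤ := round (x * (3 / 2) ^ n - v) with hl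
    have hl1 : |x * (3 / 2) ^ n - v - l| ≤ 1 / 2 := abs_sub_round _
    refine ⟨(v + l) / (3 / 2) ^ n, ?_, n, ?_⟩
    · rw [Metric.mem_ball, Real.dist_eq]
      have e : (v + l) / (3 / 2) ^ n - x = -(x * (3 / 2) ^ n - v - l) / (3 / 2) ^ n := by
        field_simp; ring
      rw [e, abs_div, abs_neg, abs_of_pos hn0, div_lt_iff₀ hn0]
      have h3 : 1 < ε * (3 / 2) ^ n := by
        rw [div_lt_iff₀ hε] at hn
        linarith
      linarith
    · rw [div_mul_cancel₀ _ hn0.ne', AddCircle.coe_add]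
      have h3 : ((l : ℝ) : TT) = 0 := by
        rw [AddCircle.coe_eq_zero_iff]; exact ⟨l, by simp⟩
      rw [h3, add_zero]
      exact hu
  have h3 := dense_iInter_of_isOpen h1 h2
  obtain ⟨r, hr⟩ := h3.nonempty
  exact ⟨r, fun w => mem_iInter.1 hr w⟩

/-- finite sets which are invariant under a multiplication consist of torsion points -/
lemma torsion {q : ℕ} (hq : 2 ≤ q) {B : Set TT} (hB : B.Finite) (hinv : ∀ x ∈ B, q • x ∈ B) :
    ∃ b : ℕ, 1 ≤ b ∧ ∀ x ∈ B, b • x = 0 := by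
  have h1 : ∀ x ∈ B, ∃ b : ℕ, 1 ≤ b ∧ b • x = 0 := by
    intro x hx
    have h2 : ∀ i : ℕ, (q ^ i) • x ∈ B := by
      intro i
      induction i with
      | zero => simpa using hx
      | succ i ih => rw [pow_succ', mul_nsmul']; exact hinv _ ih
    obtain ⟨i, j, hij, h3⟩ : ∃ i j : ℕ, i < j ∧ (q ^ i) • x = (q ^ j) • x := by
      have h4 : ¬ Function.Injective (fun i : ℕ => (⟨(q ^ i) • x, h2 i⟩ : B)) := by
        have : Finite B := hB
        exact not_injective_infinite_finite _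
      rw [Function.Injective] at h4
      push Not at h4
      obtain ⟨i, j, h5, h6⟩ := h4
      have h7 : (q ^ i) • x = (q ^ j) • x := congrArg Subtype.val h5
      rcases lt_or_gt_of_ne h6 with h | h
      · exact ⟨i, j, h, h7⟩
      · exact ⟨j, i, h, h7.symm⟩
    have h8 : q ^ i < q ^ j := Nat.pow_lt_pow_right (by omega) hij
    refine ⟨q ^ j - q ^ i, by omega, ?_⟩
    have h9 : (q ^ j - q ^ i) • x + (q ^ i) • x = (q ^ j) • x := by
      rw [← add_nsmul]
      congr 1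
      omega
    rw [h3] at h9
    exact add_eq_right.1 h9
  choose! b hb1 hb2 using h1
  refine ⟨∏ x ∈ hB.toFinset, b x, ?_, ?_⟩
  · exact Finset.prod_pos fun x hx => Nat.lt_of_lt_of_le Nat.zero_lt_one (hb1 x (hB.mem_toFinset.1 hx))
  · intro x hx
    obtain ⟨d, hd⟩ := Finset.dvd_prod_of_mem b (hB.mem_toFinset.2 hx)
    rw [hd, mul_comm, mul_nsmul', hb2 x hx, nsmul_zero]

variable {W : Type} [TopologicalSpace W] [DiscreteTopology W] [Finite W]

theorem no_bad (U : W → Set TT) (hU : ∀ w, IsOpen (U w)) (hne : ∀ w, (U w).Nonempty)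
    (s c : ℕ) (hc : 1 ≤ c) (hs : s = 2 * c ∨ s = 3 * c) (ξ : ℕ → ℝ) (K : ℕ → ℕ) (ω : ℕ → ℕ → W)
    (hξ : ∀ k, 0 < ξ k) (hK : ∀ k, k ≤ K k) (hK1 : ∀ k, 2 ^ k * ξ k ≤ 2 ^ (K k))
    (hK2 : ∀ k, (3 / 2) ^ k ≤ ξ k * (3 / 2) ^ (K k))
    (hbad : ∀ k j t : ℕ, j ≤ k → t ≤ K k → (((s : ℝ) ^ j * ξ k * (3 / 2 : ℝ) ^ t : ℝ) : TT) ∉ U (ω k j)) :
    False := by
  set B : Set TT := (fun a : St W => a.1 0) '' (Y s ξ K ω) with hB
  have hBc : IsClosed B := (isClosed_Y.isCompact.image (by fun_prop)).isClosed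
  have hinv : Inv (3 * c) (2 * c) B := by
    rintro _ ⟨a, ha, rfl⟩
    simp only
    rcases hs with hs | hs
    · constructor
      · refine ⟨sg s (tp a), sg_mem (tp_mem ha), ?_⟩
        have h1 := rel ha 0
        rw [zero_add] at h1
        show s • a.1 (0 + 1) = _
        rw [zero_add, hs, mul_comm 2 c, mul_nsmul', h1, ← mul_nsmul', mul_comm]
      · exact ⟨sg s a, sg_mem ha, by show s • a.1 0 = _; rw [hs]⟩
    · constructor
      · exact ⟨sg s a, sg_mem ha, by show s • a.1 0 = _; rw [hs]⟩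
      · refine ⟨sg s (tm a), sg_mem (tm_mem ha), ?_⟩
        have h1 := rel ha (-1)
        rw [neg_add_cancel] at h1
        show s • a.1 (0 - 1) = _
        rw [zero_sub, hs, mul_comm 3 c, mul_nsmul', ← h1, ← mul_nsmul', mul_comm]
  by_cases hfin : B.Finite
  · -- the finite case
    obtain ⟨b, hb1, hb2⟩ := torsion (by omega : 2 ≤ 2 * c) hfin (fun x hx => (hinv x hx).2)
    have h1 : ∃ m, ¬ (E s ξ K ω m ∩ {a : St W | 1 / 5 ≤ ‖b • a.1 0‖}).Nonempty := by
      by_contra h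
      push Not at h
      have hC : IsClosed {a : St W | 1 / 5 ≤ ‖b • a.1 0‖} := isClosed_le (by fun_prop) (by fun_prop)
      obtain ⟨a, ha1, ha2⟩ := Y_inter hC h
      rw [mem_ofPred_eq, hb2 (a.1 0) ⟨a, ha1, rfl⟩, norm_zero] at ha2
      norm_num at ha2
    obtain ⟨m, hm⟩ := h1
    obtain ⟨k, hk⟩ := pow_unbounded_of_one_lt (2 * 2 ^ (2 * m) * (b * (3 / 2) ^ m) : ℝ) (by norm_num : (1 : ℝ) < 2)
    set k' := max k (2 * m) with hk'
    have hkk : k ≤ k' := le_max_left _ _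
    have hmk : 2 * m ≤ k' := le_max_right _ _
    have hKk := hK k'
    have h2 : ∀ t : ℕ, m ≤ t → t ≤ K k' - m →
        |(b * ξ k') * (3 / 2) ^ t - round ((b * ξ k') * (3 / 2) ^ t)| < 1 / 5 := by
      intro t h3 h4
      by_contra h5
      apply hm
      refine ⟨elt s ξ ω k' 0 t, ⟨k', 0, t, by omega, h3, by omega, rfl⟩, ?_⟩
      rw [mem_ofPred_eq]
      unfold elt
      simp only
      rw [← AddCircle.coe_nsmul, UnitAddCircle.norm_eq, zero_add, pow_zero, one_mul, zpow_natCast,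
        nsmul_eq_mul, ← mul_assoc]
      exact not_lt.1 h5
    have hb0 : (1 : ℝ) ≤ b := by exact_mod_cast hb1
    have hξ0 := hξ k'
    have e1 : K k' = (K k' - m) + m := by omega
    rcases near (b * ξ k') m (K k' - m) (by omega) h2 with h3 | h3
    · have h4 := hK2 k'
      have h5 : (3 / 2 : ℝ) ^ m ≤ (3 / 2) ^ k' := pow_le_pow_right₀ (by norm_num) (by omega)
      rw [e1, pow_add] at h4
      have h6 : (0 : ℝ) < (3 / 2) ^ m := by positivity
      have h7 : 1 ≤ ξ k' * (3 / 2) ^ (K k' - m) := by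
        by_contra h8
        push Not at h8
        nlinarith
      rw [abs_of_pos (by positivity)] at h3
      nlinarith
    · have h4 := hK1 k'
      have h5 : (2 : ℝ) ^ k' ≤ 2 ^ (K k') := pow_le_pow_right₀ (by norm_num) hKk
      rw [abs_of_pos (by positivity)] at h3
      have e2 : (2 : ℝ) ^ (K k') = 2 ^ (K k' - m) * 2 ^ m := by rw [← pow_add]; congr 1
      have h6 : (2 : ℝ) ^ k ≤ 2 ^ k' := pow_le_pow_right₀ (by norm_num) hkk
      have h7 : (0 : ℝ) < 2 ^ m := by positivity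
      have h8 : (2 : ℝ) ^ (K k') ≤ 2 ^ m * (b * ξ k' * (3 / 2) ^ m + 1) * 2 ^ m := by
        rw [e2]
        exact mul_le_mul_of_nonneg_right h3 h7.le
      have h9 : (1 : ℝ) ≤ b * (3 / 2) ^ m := by
        have : (1 : ℝ) ≤ (3 / 2) ^ m := one_le_pow₀ (by norm_num)
        nlinarith
      have e3 : (2 : ℝ) ^ (2 * m) = 2 ^ m * 2 ^ m := by rw [← pow_add]; congr 1; ring
      rw [e3] at hk
      have h10 : (2 : ℝ) ^ k' * (ξ k' + 1) ≤ 2 * (2 ^ m * (b * ξ k' * (3 / 2) ^ m + 1) * 2 ^ m) := by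
        nlinarith
      have h11 : b * ξ k' * (3 / 2) ^ m + 1 ≤ (b * (3 / 2) ^ m) * (ξ k' + 1) := by nlinarith
      have h12 : (2 : ℝ) ^ k' * (ξ k' + 1) ≤ 2 * (2 ^ m * 2 ^ m) * (b * (3 / 2) ^ m) * (ξ k' + 1) := by
        have : (2 : ℝ) ^ m * (b * ξ k' * (3 / 2) ^ m + 1) * 2 ^ m ≤
            2 ^ m * ((b * (3 / 2) ^ m) * (ξ k' + 1)) * 2 ^ m := by gcongr
        nlinarith
      have h13 : (2 : ℝ) ^ k' ≤ 2 * (2 ^ m * 2 ^ m) * (b * (3 / 2) ^ m) :=
        le_of_mul_le_mul_right h12 (by linarith)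
      linarith
  · -- the case of the full circle
    have hB1 : B = univ := Pool.Agent.R477.XQ.furst (by omega) (by omega) (irr c hc) hBc hinv hfin
    obtain ⟨r, hr⟩ := visits U hU hne
    choose n hn using hr
    obtain ⟨M, hM⟩ := (Set.finite_range n).bddAbove
    have hM' : ∀ w, n w ≤ M := fun w => hM ⟨w, rfl⟩
    have hc0 : (c : ℝ) ≠ 0 := by
      have : (1 : ℝ) ≤ c := by exact_mod_cast hc
      positivity
    obtain ⟨a, ha, haM⟩ : ∃ a ∈ Y s ξ K ω, ∀ i : ℕ, i ≤ M → a.1 i = ((r * (3 / 2) ^ i : ℝ) : TT) := by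
      rcases hs with hs | hs
      · have h1 : (((r / (s : ℝ) ^ M : ℝ)) : TT) ∈ B := by rw [hB1]; trivial
        obtain ⟨a, ha, ha0⟩ := h1
        obtain ⟨a', ha', h2⟩ := sg_iter ha M
        refine ⟨a', ha', fun i hi => ?_⟩
        have h3 := rel_iter ha 0 i
        rw [zero_add] at h3
        have e : s ^ M = (c ^ M * 2 ^ (M - i)) * 2 ^ i := by
          rw [mul_assoc, ← pow_add, Nat.sub_add_cancel hi, hs, mul_pow, mul_comm]
        have ha0' : a.1 0 = (((r / (s : ℝ) ^ M : ℝ)) : TT) := ha0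
        rw [h2, e, mul_nsmul', h3, ha0', ← AddCircle.coe_nsmul, ← AddCircle.coe_nsmul]
        congr 1
        rw [nsmul_eq_mul, nsmul_eq_mul, hs]
        push_cast
        have e2 : (2 : ℝ) ^ M = 2 ^ (M - i) * 2 ^ i := by rw [← pow_add, Nat.sub_add_cancel hi]
        rw [mul_pow, e2, div_pow]
        field_simp
      · have h1 : (((r * (3 / 2) ^ M / (s : ℝ) ^ M : ℝ)) : TT) ∈ B := by rw [hB1]; trivial
        obtain ⟨a0, ha0, h00⟩ := h1
        obtain ⟨a, ha, h01⟩ := tm_iter ha0 M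
        obtain ⟨a', ha', h2⟩ := sg_iter ha M
        refine ⟨a', ha', fun i hi => ?_⟩
        have h3 := rel_iter ha i (M - i)
        have e0 : (i : ℤ) + ((M - i : ℕ) : ℤ) = M := by omega
        rw [e0, h01, sub_self] at h3
        have e : s ^ M = (c ^ M * 3 ^ i) * 3 ^ (M - i) := by
          rw [mul_assoc, ← pow_add, Nat.add_sub_cancel' hi, hs, mul_pow, mul_comm]
        have h00' : a0.1 0 = (((r * (3 / 2) ^ M / (s : ℝ) ^ M : ℝ)) : TT) := h00
        rw [h2, e, mul_nsmul', ← h3, h00', ← AddCircle.coe_nsmul, ← AddCircle.coe_nsmul]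
        congr 1
        rw [nsmul_eq_mul, nsmul_eq_mul, hs]
        push_cast
        have e2 : (2 : ℝ) ^ M = 2 ^ (M - i) * 2 ^ i := by rw [← pow_add, Nat.sub_add_cancel hi]
        rw [mul_pow, div_pow, div_pow, e2]
        field_simp
    have h1 := avoid hU hbad ha (n (a.2 0))
    rw [haM _ (hM' _)] at h1
    exact h1 (hn _)

/-- **Main theorem.** -/
theorem core {W : Type} [Finite W] (U : W → Set TT) (hU : ∀ w, IsOpen (U w)) (hne : ∀ w, (U w).Nonempty)
    (s c : ℕ) (hc : 1 ≤ c) (hs : s = 2 * c ∨ s = 3 * c) :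
    ∃ C : ℕ, ∀ ξ : ℝ, 0 < ξ → ∀ K : ℕ, C ≤ K → 2 ^ C * ξ ≤ 2 ^ K → (3 / 2) ^ C ≤ ξ * (3 / 2) ^ K →
      ∃ j ≤ C, ∀ w, ∃ n ≤ K, (((s : ℝ) ^ j * ξ * (3 / 2 : ℝ) ^ n : ℝ) : TT) ∈ U w := by
  let _ : TopologicalSpace W := ⊥
  have _ : DiscreteTopology W := ⟨rfl⟩
  by_contra hcon
  push Not at hcon
  choose ξ hξ K hK hK1 hK2 hbad using hcon
  have _ : Nonempty W := by
    obtain ⟨w, -⟩ := hbad 0 0 le_rfl
    exact ⟨w⟩
  choose! ω hω using hbad
  exact no_bad U hU hne s c hc hs ξ K ω hξ hK hK1 hK2 (fun k j t hj ht => hω k j hj t ht)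

end Pool.Agent.Zk45.Syn
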