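import Pool.Agent.Zk45.Syn.Core
import Pool.Agent.H429R2.Auto

/-!
From arcs of the circle to words.
-/

set_option autoImplicit false

open Filter Topology Set
open Pool.Agent.H847R3.XpXq
open Pool.Agent.H429R2.Auto

namespace Pool.Agent.Zk45.Syn

/-- the letter at distance `r` from the end -/
def rev {L : ℕ} (w : Fin L → Fin 6) (r : ℕ) : Fin 6 := if h : r < L then w ⟨L - 1 - r, by omega⟩ else 0

/-- the number with the digits `w` -/
def code {L : ℕ} (w : Fin L → Fin 6) : ℕ := ∑ r ∈ Finset.range L, (rev w r : ℕ) * 6 ^ r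

/-- the open arc of the numbers whose first digits are `w` -/
def arc {L : ℕ} (w : Fin L → Fin 6) : Set TT :=
  (fun r : ℝ => (r : TT)) '' Ioo ((code w : ℝ) / 6 ^ L) (((code w : ℝ) + 1) / 6 ^ L)

lemma arc_open {L : ℕ} (w : Fin L → Fin 6) : IsOpen (arc w) :=
  QuotientAddGroup.isOpenMap_coe _ isOpen_Ioo

lemma arc_nonempty {L : ℕ} (w : Fin L → Fin 6) : (arc w).Nonempty := by
  refine Set.Nonempty.image _ (nonempty_Ioo.2 ?_)
  have : (0 : ℝ) < 6 ^ L := by positivity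
  exact div_lt_div_of_pos_right (by linarith) this

lemma shows_of_arc {L : ℕ} (w : Fin L → Fin 6) {x : Conf} {β : ℝ} (hβ : 0 ≤ β) (hx : Rep x β) (j : ℤ)
    (h : (((6 : ℝ) ^ (j - 1) * β : ℝ) : TT) ∈ arc w) : ∀ t : Fin L, x (j + (t : ℕ)) = w t := by
  obtain ⟨ρ, ⟨h1, h2⟩, h3⟩ := h
  simp only at h3
  have h4 : ((((6 : ℝ) ^ (j - 1) * β - ρ : ℝ)) : TT) = 0 := by rw [AddCircle.coe_sub, h3, sub_self]
  rw [AddCircle.coe_eq_zero_iff] at h4
  obtain ⟨l, hl⟩ := h4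
  rw [zsmul_eq_mul, mul_one] at hl
  have h6L : (0 : ℝ) < 6 ^ L := by positivity
  have hcode : code w < 6 ^ L := sum_lt L (rev w)
  rw [div_lt_iff₀ h6L] at h1
  rw [lt_div_iff₀ h6L] at h2
  have hl0 : 0 ≤ l := by
    have h5 : (0 : ℝ) ≤ (6 : ℝ) ^ (j - 1) * β := by positivity
    have h6 : ρ < 1 := by
      have : (code w : ℝ) + 1 ≤ 6 ^ L := by exact_mod_cast hcode
      by_contra h7
      push Not at h7
      nlinarith
    have h7 : (-1 : ℝ) < l := by rw [hl]; linarith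
    have h8 : (-1 : ℤ) < l := by exact_mod_cast h7
    omega
  obtain ⟨l', rfl⟩ := Int.eq_ofNat_of_zero_le hl0
  have h5 : ⌊(6 : ℝ) ^ (j + L - 1) * β⌋₊ = 6 ^ L * l' + code w := by
    have e : (6 : ℝ) ^ (j + L - 1) * β = 6 ^ L * (l' + ρ) := by
      have e1 : (6 : ℝ) ^ (j + L - 1) = 6 ^ L * 6 ^ (j - 1) := by
        rw [← zpow_natCast, ← zpow_add₀ (by norm_num)]
        congr 1
        ring
      rw [e1, mul_assoc]
      congr 1
      push_cast at hl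
      linarith
    rw [e, Nat.floor_eq_iff (by
      have : 0 ≤ ρ * 6 ^ L := le_trans (Nat.cast_nonneg _) h1.le
      have h9 : 0 ≤ ρ := nonneg_of_mul_nonneg_left this h6L
      positivity)]
    push_cast
    constructor <;> nlinarith
  intro t
  have h6 := letter hx j L (L - 1 - t) (by have := t.isLt; omega)
  have h7 : j + L - 1 - ((L - 1 - t : ℕ) : ℤ) = j + (t : ℕ) := by have := t.isLt; omega
  rw [h7, h5, Nat.mul_add_mod, Nat.mod_eq_of_lt hcode, code,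
    digits_sum L (rev w) (L - 1 - t) (by have := t.isLt; omega)] at h6
  have h8 : x (j + (t : ℕ)) = rev w (L - 1 - t) := Fin.ext h6
  rw [h8, rev, dif_pos (by have := t.isLt; omega)]
  congr 1
  apply Fin.ext
  have := t.isLt
  simp only
  omega

/-- the core statement for words, with a bound for the times -/
theorem wordsK (s c : ℕ) (hc : 1 ≤ c) (hs : s = 2 * c ∨ s = 3 * c) (L : ℕ) :
    ∃ C : ℕ, ∀ (α : ℝ), 0 < α → ∀ (p : ℤ) (N : ℕ), ∃ i ≤ C, ∀ w : Fin L → Fin 6,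
      ∃ n : ℕ, N ≤ n ∧ (n : ℝ) ≤ N + C + max (Real.logb 2 ((6 : ℝ) ^ p * ((3 / 2) ^ N * α)))
        (-Real.logb (3 / 2) ((6 : ℝ) ^ p * ((3 / 2) ^ N * α))) ∧
      (((6 : ℝ) ^ (p - 1) * ((3 / 2) ^ n * ((s : ℝ) ^ i * α)) : ℝ) : TT) ∈ arc w := by
  obtain ⟨C, hC⟩ := core (fun w : Fin L → Fin 6 => arc w) arc_open arc_nonempty s c hc hs
  refine ⟨C + 6, fun α hα p N => ?_⟩
  set v : ℝ := (6 : ℝ) ^ p * ((3 / 2) ^ N * α) with hv
  have hv0 : 0 < v := by positivity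
  set mx : ℝ := max (Real.logb 2 v) (-Real.logb (3 / 2) v) with hmx
  have hmx0 : 0 ≤ mx := by
    rcases le_total 1 v with h | h
    · exact le_max_of_le_left (Real.logb_nonneg (by norm_num) h)
    · refine le_max_of_le_right ?_
      have := Real.logb_nonpos (by norm_num : (1 : ℝ) < 3 / 2) hv0.le h
      linarith
  set K : ℕ := ⌊((C : ℝ) + 6) + mx⌋₊ with hK
  have hK0 : 0 ≤ ((C : ℝ) + 6) + mx := by positivity
  have hK1 : (K : ℝ) ≤ ((C : ℝ) + 6) + mx := Nat.floor_le hK0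
  have hK2 : ((C : ℝ) + 6) + mx < K + 1 := Nat.lt_floor_add_one _
  have hCK : C ≤ K := by
    have : (C : ℝ) < K + 1 := by linarith
    have : C < K + 1 := by exact_mod_cast this
    omega
  have e1 : (2 : ℝ) ^ C * (v / 6) ≤ 2 ^ K := by
    have h1 : Real.logb 2 v ≤ mx := le_max_left _ _
    have h2 : (C : ℝ) + Real.logb 2 v ≤ K := by linarith
    have h3 : (2 : ℝ) ^ ((C : ℝ) + Real.logb 2 v) ≤ (2 : ℝ) ^ (K : ℝ) :=
      Real.rpow_le_rpow_of_exponent_le (by norm_num) h2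
    rw [Real.rpow_add (by norm_num), Real.rpow_natCast, Real.rpow_natCast,
      Real.rpow_logb (by norm_num) (by norm_num) hv0] at h3
    have h4 : (0 : ℝ) < 2 ^ C := by positivity
    nlinarith
  have e2 : (3 / 2 : ℝ) ^ C ≤ v / 6 * (3 / 2) ^ K := by
    have h1 : -Real.logb (3 / 2) v ≤ mx := le_max_right _ _
    have h2 : (C : ℝ) + 5 ≤ Real.logb (3 / 2) v + K := by linarith
    have h3 : (3 / 2 : ℝ) ^ ((C : ℝ) + 5) ≤ (3 / 2 : ℝ) ^ (Real.logb (3 / 2) v + K) :=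
      Real.rpow_le_rpow_of_exponent_le (by norm_num) h2
    rw [Real.rpow_add (by norm_num), Real.rpow_add (by norm_num), Real.rpow_natCast, Real.rpow_natCast,
      Real.rpow_logb (by norm_num) (by norm_num) hv0,
      show (3 / 2 : ℝ) ^ (5 : ℝ) = (3 / 2) ^ (5 : ℕ) by rw [← Real.rpow_natCast]; norm_num] at h3
    have h4 : (0 : ℝ) < (3 / 2) ^ C := by positivity
    nlinarith
  obtain ⟨i, hi, h⟩ := hC (v / 6) (by positivity) K hCK e1 e2
  refine ⟨i, by omega, fun w => ?_⟩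
  obtain ⟨n, hn, hnw⟩ := h w
  refine ⟨N + n, by omega, ?_, ?_⟩
  · have : (n : ℝ) ≤ K := by exact_mod_cast hn
    push_cast
    linarith
  · have e3 : (6 : ℝ) ^ (p - 1) * ((3 / 2) ^ (N + n) * ((s : ℝ) ^ i * α)) = (s : ℝ) ^ i * (v / 6) * (3 / 2) ^ n := by
      rw [hv, zpow_sub_one₀ (by norm_num), pow_add]
      ring
    rw [e3]
    exact hnw

/-- infinitely often -/
theorem words_inf (s c : ℕ) (hc : 1 ≤ c) (hs : s = 2 * c ∨ s = 3 * c) (L : ℕ) :
    ∃ C : ℕ, ∀ (α : ℝ), 0 < α → ∀ (p : ℤ), ∃ i ≤ C, ∀ w : Fin L → Fin 6,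
      {n : ℕ | (((6 : ℝ) ^ (p - 1) * ((3 / 2) ^ n * ((s : ℝ) ^ i * α)) : ℝ) : TT) ∈ arc w}.Infinite := by
  obtain ⟨C, hC⟩ := wordsK s c hc hs L
  refine ⟨C, fun α hα p => ?_⟩
  choose f hf1 hf2 using fun N : ℕ => hC α hα p N
  obtain ⟨y, hy⟩ := Finite.exists_infinite_fiber (fun N : ℕ => (⟨f N, Nat.lt_succ_of_le (hf1 N)⟩ : Fin (C + 1)))
  refine ⟨y, Nat.lt_succ_iff.1 y.isLt, fun w => ?_⟩
  rw [Set.infinite_coe_iff] at hy
  rw [Set.infinite_iff_exists_gt] at hy ⊢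
  intro a
  obtain ⟨N, hN, haN⟩ := hy a
  obtain ⟨n, hn1, -, hn3⟩ := hf2 N w
  refine ⟨n, ?_, by omega⟩
  have e : f N = y := by
    have := congrArg Fin.val (Set.mem_singleton_iff.1 hN)
    exact this
  rw [e] at hn3
  exact hn3

end Pool.Agent.Zk45.Syn
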