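import Pool.Agent.R477.XQ.Furst

/-!
Limits of the orbits `s^j ξ_k (3/2)^t` modulo one: a compact set of two-sided sequences.
-/

set_option autoImplicit false
set_option linter.unusedSectionVars false

open Filter Topology Set
open Pool.Agent.H847R3.XpXq

namespace Pool.Agent.Zk45.Syn

/-- sequences of points of the circle, and sequences of letters -/
abbrev St (W : Type) := (ℤ → TT) × (ℕ → W)

variable {W : Type} [TopologicalSpace W] [DiscreteTopology W] [Finite W]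

/-- the orbit of `s^j ξ_k`, seen from the time `t` -/
noncomputable def elt (s : ℕ) (ξ : ℕ → ℝ) (ω : ℕ → ℕ → W) (k j t : ℕ) : St W :=
  (fun n : ℤ => (((s : ℝ) ^ j * ξ k * (3 / 2 : ℝ) ^ (n + (t : ℤ)) : ℝ) : TT), fun i => ω k (i + j))

/-- the states at a distance at least `m` from the boundary -/
def E (s : ℕ) (ξ : ℕ → ℝ) (K : ℕ → ℕ) (ω : ℕ → ℕ → W) (m : ℕ) : Set (St W) :=
  {a | ∃ k j t : ℕ, j + m ≤ k ∧ m ≤ t ∧ t + m ≤ K k ∧ a = elt s ξ ω k j t}

/-- the limits -/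
def Y (s : ℕ) (ξ : ℕ → ℝ) (K : ℕ → ℕ) (ω : ℕ → ℕ → W) : Set (St W) :=
  ⋂ m, closure (E s ξ K ω m)

variable {s : ℕ} {ξ : ℕ → ℝ} {K : ℕ → ℕ} {ω : ℕ → ℕ → W}

lemma E_anti {m m' : ℕ} (h : m ≤ m') : E s ξ K ω m' ⊆ E s ξ K ω m := by
  rintro a ⟨k, j, t, h1, h2, h3, rfl⟩
  exact ⟨k, j, t, by omega, by omega, by omega, rfl⟩

lemma isClosed_Y : IsClosed (Y s ξ K ω) := isClosed_iInter fun _ => isClosed_closure

lemma Y_subset {C : Set (St W)} (hC : IsClosed C) {m : ℕ} (h : E s ξ K ω m ⊆ C) : Y s ξ K ω ⊆ C :=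
  (iInter_subset _ m).trans (closure_minimal h hC)

lemma Y_inter {C : Set (St W)} (hC : IsClosed C) (h : ∀ m, (E s ξ K ω m ∩ C).Nonempty) :
    (Y s ξ K ω ∩ C).Nonempty := by
  have h1 : (⋂ m, closure (E s ξ K ω m ∩ C)).Nonempty := by
    apply IsCompact.nonempty_iInter_of_sequence_nonempty_isCompact_isClosed
    · intro m
      exact closure_mono (inter_subset_inter_left _ (E_anti (Nat.le_succ m)))
    · intro m
      exact (h m).closure
    · exact isClosed_closure.isCompact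
    · intro m
      exact isClosed_closure
  obtain ⟨a, ha⟩ := h1
  rw [mem_iInter] at ha
  refine ⟨a, ?_, ?_⟩
  · rw [Y, mem_iInter]
    exact fun m => closure_mono inter_subset_left (ha m)
  · exact closure_minimal inter_subset_right hC (ha 0)

lemma Y_nonempty (hK : ∀ k, k ≤ K k) : (Y s ξ K ω).Nonempty := by
  have h := Y_inter (s := s) (ξ := ξ) (K := K) (ω := ω) (C := univ) isClosed_univ (fun m =>
    ⟨elt s ξ ω (2 * m) 0 m, ⟨2 * m, 0, m, by omega, le_rfl, by have := hK (2 * m); omega, rfl⟩,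
      mem_univ _⟩)
  exact h.mono inter_subset_left

lemma Y_map {φ : St W → St W} (hφ : Continuous φ) (h : ∀ m, ∀ a ∈ E s ξ K ω (m + 1), φ a ∈ E s ξ K ω m)
    {a : St W} (ha : a ∈ Y s ξ K ω) : φ a ∈ Y s ξ K ω := by
  rw [Y, mem_iInter] at ha ⊢
  intro m
  exact map_mem_closure hφ (ha (m + 1)) (h m)

/-- the shift of time -/
def tp (a : St W) : St W := (fun n => a.1 (n + 1), a.2)
/-- the inverse shift of time -/
def tm (a : St W) : St W := (fun n => a.1 (n - 1), a.2)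
/-- multiplication by `s` -/
def sg (s : ℕ) (a : St W) : St W := (fun n => s • a.1 n, fun i => a.2 (i + 1))

lemma tp_mem {a : St W} (ha : a ∈ Y s ξ K ω) : tp a ∈ Y s ξ K ω := by
  refine Y_map (by unfold tp; fun_prop) ?_ ha
  rintro m a ⟨k, j, t, h1, h2, h3, rfl⟩
  refine ⟨k, j, t + 1, by omega, by omega, by omega, ?_⟩
  unfold tp elt
  refine Prod.ext (funext fun n => ?_) rfl
  simp only
  congr 3
  push_cast
  ring

lemma tm_mem {a : St W} (ha : a ∈ Y s ξ K ω) : tm a ∈ Y s ξ K ω := by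
  refine Y_map (by unfold tm; fun_prop) ?_ ha
  rintro m a ⟨k, j, t, h1, h2, h3, rfl⟩
  refine ⟨k, j, t - 1, by omega, by omega, by omega, ?_⟩
  unfold tm elt
  refine Prod.ext (funext fun n => ?_) rfl
  simp only
  congr 3
  have : ((t - 1 : ℕ) : ℤ) = t - 1 := by omega
  rw [this]
  ring

lemma sg_mem {a : St W} (ha : a ∈ Y s ξ K ω) : sg s a ∈ Y s ξ K ω := by
  refine Y_map (by unfold sg; fun_prop) ?_ ha
  rintro m a ⟨k, j, t, h1, h2, h3, rfl⟩
  refine ⟨k, j + 1, t, by omega, by omega, by omega, ?_⟩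
  unfold sg elt
  refine Prod.ext (funext fun n => ?_) (funext fun i => ?_)
  · simp only
    rw [← AddCircle.coe_nsmul]
    congr 1
    rw [nsmul_eq_mul]
    ring
  · simp only
    congr 1
    ring

lemma sg_iter {a : St W} (ha : a ∈ Y s ξ K ω) (M : ℕ) : ∃ a' ∈ Y s ξ K ω, ∀ n, a'.1 n = (s ^ M) • a.1 n := by
  induction M with
  | zero => exact ⟨a, ha, fun n => by simp⟩
  | succ M ih =>
    obtain ⟨a', h1, h2⟩ := ih
    refine ⟨sg s a', sg_mem h1, fun n => ?_⟩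
    show s • a'.1 n = _
    rw [h2, pow_succ', mul_nsmul']

lemma tm_iter {a : St W} (ha : a ∈ Y s ξ K ω) (M : ℕ) : ∃ a' ∈ Y s ξ K ω, ∀ n, a'.1 n = a.1 (n - M) := by
  induction M with
  | zero => exact ⟨a, ha, fun n => by simp⟩
  | succ M ih =>
    obtain ⟨a', h1, h2⟩ := ih
    refine ⟨tm a', tm_mem h1, fun n => ?_⟩
    show a'.1 (n - 1) = _
    rw [h2, show n - 1 - (M : ℤ) = n - ((M + 1 : ℕ) : ℤ) by push_cast; ring]

/-- the relation between consecutive times -/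
lemma rel {a : St W} (ha : a ∈ Y s ξ K ω) (n : ℤ) : 2 • a.1 (n + 1) = 3 • a.1 n := by
  have hC : IsClosed {a : St W | 2 • a.1 (n + 1) = 3 • a.1 n} :=
    isClosed_eq (by fun_prop) (by fun_prop)
  refine Y_subset (m := 0) hC ?_ ha
  rintro a ⟨k, j, t, h1, h2, h3, rfl⟩
  show 2 • (elt s ξ ω k j t).1 (n + 1) = 3 • (elt s ξ ω k j t).1 n
  unfold elt
  simp only
  rw [← AddCircle.coe_nsmul, ← AddCircle.coe_nsmul]
  congr 1
  rw [nsmul_eq_mul, nsmul_eq_mul, show n + 1 + (t : ℤ) = n + t + 1 by ring, zpow_add_one₀ (by norm_num)]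
  push_cast
  ring

lemma rel_iter {a : St W} (ha : a ∈ Y s ξ K ω) (n : ℤ) (i : ℕ) : (2 ^ i) • a.1 (n + i) = (3 ^ i) • a.1 n := by
  induction i with
  | zero => simp
  | succ i ih =>
    have h1 := rel ha (n + i)
    rw [show n + ((i + 1 : ℕ) : ℤ) = n + i + 1 by push_cast; ring]
    calc (2 ^ (i + 1)) • a.1 (n + i + 1) = (2 ^ i) • (2 • a.1 (n + i + 1)) := by
          rw [pow_succ, mul_nsmul']
      _ = (2 ^ i) • (3 • a.1 (n + i)) := by rw [h1]
      _ = 3 • ((2 ^ i) • a.1 (n + i)) := by rw [nsmul_left_comm]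
      _ = 3 • ((3 ^ i) • a.1 n) := by rw [ih]
      _ = (3 ^ (i + 1)) • a.1 n := by rw [pow_succ', mul_nsmul']

/-- the letters are avoided -/
lemma avoid {U : W → Set TT} (hU : ∀ w, IsOpen (U w))
    (hbad : ∀ k j t : ℕ, j ≤ k → t ≤ K k → (((s : ℝ) ^ j * ξ k * (3 / 2 : ℝ) ^ t : ℝ) : TT) ∉ U (ω k j))
    {a : St W} (ha : a ∈ Y s ξ K ω) (n : ℤ) : a.1 n ∉ U (a.2 0) := by
  have hO : IsOpen {a : St W | a.1 n ∈ U (a.2 0)} := by
    have : {a : St W | a.1 n ∈ U (a.2 0)} = ⋃ w : W, {a : St W | a.1 n ∈ U w} ∩ {a : St W | a.2 0 = w} := by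
      ext a
      simp
    rw [this]
    refine isOpen_iUnion fun w => ?_
    refine ((hU w).preimage (by fun_prop)).inter ?_
    exact (isOpen_discrete {w}).preimage (f := fun a : St W => a.2 0) (by fun_prop)
  have hC : IsClosed {a : St W | a.1 n ∉ U (a.2 0)} := hO.isClosed_compl
  refine Y_subset (m := n.natAbs) hC ?_ ha
  rintro a ⟨k, j, t, h1, h2, h3, rfl⟩
  show (elt s ξ ω k j t).1 n ∉ U ((elt s ξ ω k j t).2 0)
  have h4 : n + (t : ℤ) = ((n + t).toNat : ℤ) := by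
    rw [Int.toNat_of_nonneg]
    omega
  have h5 := hbad k j (n + t).toNat (by omega) (by omega)
  unfold elt
  simp only
  rw [h4, zpow_natCast, zero_add]
  exact h5

end Pool.Agent.Zk45.Syn
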